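import Pool.Agent.H37.CP.Targets

/-!
# CPC: the formulas for cutting planes (row of cpe_modules, helper37)
-/

set_option autoImplicit false

namespace Pool.Agent.H22.CPE

open Finset Pool.Agent.H37.CP
open Pool.Agent.H1.LP (Clause viol Loc Sys supp ip)

theorem pf_CPC (hD : S_CPD) (hK : S_KER) (hW : S_WID) (hT : S_TCN) : S_CPC := by
  intro B R t l n T Ys hB hR ht hl hn hT3 hA hz hnum
  have hcardU : Fintype.card (Fin l → Bool) = 2 ^ l := by simp
  have h40 : 40 ≤ Fintype.card (Fin l → Bool) := by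
    rw [hcardU]
    calc 40 ≤ 2 ^ 6 := by norm_num
      _ ≤ 2 ^ l := Nat.pow_le_pow_right (by norm_num) hl
  have hsupp : ∀ i, (supp (Ys.A i)).card ≤ 3 := by
    intro i
    refine (card_le_card ?_).trans (hT3 i).le
    intro j hj
    have hj' : Ys.A i j ≠ 0 := by
      have := (mem_filter.mp hj).2
      exact this
    rw [hA i j] at hj'
    by_contra hc
    rw [if_neg hc] at hj'
    exact hj' rfl
  have hδ : (0 : ℝ) < 1 / 2 ^ B := by positivity
  have hcast : ((Fintype.card (Fin l → Bool) : ℕ) : ℝ) = (2 : ℝ) ^ l := by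
    rw [hcardU]; push_cast; rfl
  obtain ⟨K, hmass, hKer⟩ := hK (Fin l → Bool) B R t Ys (1 / 2 ^ B) hR ht h40 hsupp hδ.le
    (by rw [hcast]; exact hnum)
  obtain ⟨M, lit, side, f, g, e, hM, hinj, hside, hunsat, hviol⟩ :=
    hW B R l T Ys.A Ys.be hT3 hA hz
  have hw : 3 * l + 3 - 3 = 3 * l := by omega
  have hw2 : 3 * l + 3 - 2 = 3 * l + 1 := by omega
  obtain ⟨m, phi, side', f', g', hm, hcard, hun, himp⟩ :=
    hT (Fin B → (Fin l → Bool) → ZMod 2) (Fin B → (Fin l → Bool)) (B * l + B * 2 ^ l) M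
      (3 * l) (3 * l + 3) n lit side f g (by omega)
      (by
        rw [hw]
        have := Nat.mul_le_mul_right (3 * l) hM
        omega)
      hinj hside hunsat
  obtain ⟨h1, h2⟩ := hD (Fin B → (Fin l → Bool) → ZMod 2) (Fin B → (Fin l → Bool)) n m R phi
    side' f' g' (fun e y x => ip (Ys.A e) (fun j => y j (x j)) ≠ Ys.be e) K (1 / 2 ^ B) hδ
    Fintype.card_pos Fintype.card_pos hmass
    (fun ι lY lX e' he' => hKer ι lY lX e' he') hcard
    (by
      intro i
      obtain ⟨i0, hi0⟩ := himp i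
      exact ⟨e i0, fun y x hs => hviol i0 y x (hi0 y x hs)⟩)
  have hlog : Real.logb 2 (1 / (1 / (2 : ℝ) ^ B)) = B := by
    rw [one_div_one_div, Real.logb_pow, Real.logb_self_eq_one (by norm_num), mul_one]
  refine ⟨m, phi, ?_, hcard, hun, ?_, ?_⟩
  · rw [hw2] at hm
    exact hm.trans (Nat.mul_le_mul_right _ hM)
  · intro s d hr
    have := h1 s d hr
    rw [hlog] at this
    exact this
  · intro p hp hx
    have := h2 p hp hx
    have h2B : (0 : ℝ) < 2 ^ B := by positivity
    rw [mul_one_div, le_div_iff₀ h2B, one_mul] at this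
    exact this

end Pool.Agent.H22.CPE
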