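import Pool.Agent.H37.CP.Targets

/-!
# FINC: the final step for cutting planes (row of cpe_modules, helper37)
-/

set_option autoImplicit false

namespace Pool.Agent.H22.CPE

open Finset Pool.Agent.H37.CP
open Pool.Agent.H1.LP (Clause viol Loc Sys supp ip)

theorem pf_FINC (hX : Pool.Agent.H96.KX.S_X3) (hC : S_CPC) (hP : S_PARC) (hN : S_NUM) :
    S_FINC := by
  obtain ⟨R0, E, B0, hR0, hE, hsys⟩ := hX (1 / 2) (by norm_num)
  obtain ⟨l, hl, B1, hpar⟩ := hP R0 E hR0 hE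
  obtain ⟨C, hCdef⟩ : ∃ C : ℕ, C = l + 2 ^ l + R0 * 8 ^ (l + 1) * (3 * l) := ⟨_, rfl⟩
  have hlC : l ≤ C := by
    rw [hCdef]
    exact (Nat.le_add_right l _).trans (Nat.le_add_right _ _)
  have hC1 : 1 ≤ C := by omega
  have hC1r : (1 : ℝ) ≤ C := by exact_mod_cast hC1
  have hCpos : (0 : ℝ) < C := by linarith
  refine ⟨R0 * 8 ^ (l + 1) * (3 * l + 1), 1 / (4000 * (C : ℝ) ^ 2), by positivity,
    C * (B0 + B1 + 100), ?_⟩
  intro n hn
  obtain ⟨B, hBdef⟩ : ∃ B : ℕ, B = n / C := ⟨_, rfl⟩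
  have hB : B0 + B1 + 100 ≤ B := by
    rw [hBdef, Nat.le_div_iff_mul_le (by omega), Nat.mul_comm]
    exact hn
  have hBC : B * C ≤ n := by
    rw [hBdef]
    exact Nat.div_mul_le_self n C
  have hn2 : n < (B + 1) * C := by
    rw [hBdef]
    have := Nat.lt_div_mul_add (a := n) (b := C) (by omega)
    rw [Nat.add_mul, one_mul]
    exact this
  have hn3 : n ≤ 2 * B * C := by
    have : (B + 1) * C ≤ 2 * B * C := Nat.mul_le_mul_right C (by omega)
    omega
  have hn3r : (n : ℝ) ≤ 2 * B * C := by exact_mod_cast hn3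
  obtain ⟨T, Ys, hT3, hA, hgap⟩ := hsys B (by omega)
  obtain ⟨hB1, hBE, hnum⟩ := hpar B (by omega)
  have hRB : 1 ≤ R0 * B := Nat.one_le_iff_ne_zero.mpr (Nat.mul_ne_zero (by omega) (by omega))
  have hz : ∀ z : Fin B → ZMod 2, ∃ i, ip (Ys.A i) z ≠ Ys.be i := by
    intro z
    have h := hgap z
    have hpos : (0 : ℝ) < (1 - 1 / 2) * (((R0 * B : ℕ) : ℝ) / 2) := by
      have : (0 : ℝ) < ((R0 * B : ℕ) : ℝ) := by exact_mod_cast hRB
      nlinarith
    have hc : 0 < (univ.filter (fun i => ip (Ys.A i) z ≠ Ys.be i)).card := by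
      have := hpos.trans_le h
      exact_mod_cast this
    obtain ⟨i, hi⟩ := card_pos.mp hc
    exact ⟨i, (mem_filter.mp hi).2⟩
  have hsize : B * l + B * 2 ^ l + R0 * B * 8 ^ (l + 1) * (3 * l) ≤ n := by
    have : B * l + B * 2 ^ l + R0 * B * 8 ^ (l + 1) * (3 * l) = B * C := by
      rw [hCdef]; ring
    rw [this]
    exact hBC
  obtain ⟨m, phi, hm, hcard, hun, href, htree⟩ :=
    hC B (R0 * B) (B / E) l n T Ys hB1 hRB hBE hl hsize hT3 hA hz hnum
  have hBn : B ≤ n := le_trans (Nat.le_mul_of_pos_right B (by omega)) hBC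
  have hBr : (100 : ℝ) ≤ B := by
    have : 100 ≤ B := by omega
    exact_mod_cast this
  have hcn : 1 / (4000 * (C : ℝ) ^ 2) * n ≤ (B : ℝ) / 2000 := by
    rw [one_div_mul_eq_div, div_le_div_iff₀ (by positivity) (by norm_num)]
    have h1 : (B : ℝ) * C ≤ B * (C : ℝ) ^ 2 := by
      have : (C : ℝ) ≤ (C : ℝ) ^ 2 := by nlinarith
      exact mul_le_mul_of_nonneg_left this (by positivity)
    nlinarith
  refine ⟨m, phi, ?_, hcard, hun, ?_, ?_⟩
  · refine hm.trans ?_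
    calc R0 * B * 8 ^ (l + 1) * (3 * l + 1) = R0 * 8 ^ (l + 1) * (3 * l + 1) * B := by ring
      _ ≤ R0 * 8 ^ (l + 1) * (3 * l + 1) * n := Nat.mul_le_mul_left _ hBn
  · intro s d hr
    obtain ⟨hs, hin⟩ := href s d hr
    obtain ⟨q1, q2⟩ := hN (B : ℝ) s d hBr (by omega) hin
    refine ⟨?_, ?_⟩
    · refine le_trans hcn (le_trans ?_ q1)
      apply div_le_div_of_nonneg_left (by positivity) (by norm_num) (by norm_num)
    · refine le_trans ?_ (q2 hs)
      rw [one_div_mul_eq_div, div_le_div_iff₀ (by positivity) (by norm_num)]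
      have h0 : (0 : ℝ) ≤ n := Nat.cast_nonneg n
      have h1 : (n : ℝ) ^ 2 ≤ (2 * B * C) ^ 2 := pow_le_pow_left₀ h0 hn3r 2
      nlinarith
  · intro p hp hx
    have h7 := htree p hp hx
    have hexp : 1 / (4000 * (C : ℝ) ^ 2) * n ≤ (B : ℝ) / 7 := by
      refine hcn.trans ?_
      apply div_le_div_of_nonneg_left (by positivity) (by norm_num) (by norm_num)
    refine le_trans (Real.rpow_le_rpow_of_exponent_le (by norm_num) hexp) ?_
    have hs0 : (0 : ℝ) ≤ (p.size : ℝ) := Nat.cast_nonneg _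
    have hpow : ((2 : ℝ) ^ ((B : ℝ) / 7)) ^ 7 = 2 ^ B := by
      rw [← Real.rpow_natCast, ← Real.rpow_mul (by norm_num)]
      have : (B : ℝ) / 7 * ((7 : ℕ) : ℝ) = (B : ℝ) := by push_cast; ring
      rw [this, Real.rpow_natCast]
    have h8 : ((2 : ℝ) ^ ((B : ℝ) / 7)) ^ 7 ≤ (p.size : ℝ) ^ 7 := by
      rw [hpow]; exact h7
    exact le_of_pow_le_pow_left₀ (by norm_num) hs0 h8

end Pool.Agent.H22.CPE
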