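import Pool.Agent.H37.CP.Targets

/-!
# SEL: a balanced subtree (row of cpe_modules, helper37)
-/

set_option autoImplicit false

namespace Pool.Agent.H22.CPE

open Finset Pool.Agent.H37.CP

theorem cov_anti {Y X ι V : Type} (lY : ι → Set Y) (lX : ι → Finset X) (w : V → X → ℝ)
    (u : V → Y → ℝ) (Z Z' : Y → X → Prop) (h : ∀ y x, Z' y x → Z y x) :
    ∀ t : MT V, t.Cov lY lX w u Z → t.Cov lY lX w u Z' := by
  intro t
  induction t with
  | dead v =>
    intro ht y x hz
    exact ht y x (h y x hz)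
  | live v =>
    rintro ⟨i, hi⟩
    exact ⟨i, fun y x hz => hi y x (h y x hz)⟩
  | node v l r ihl ihr =>
    rintro ⟨h1, h2, h3⟩
    exact ⟨ihl h1, ihr h2, fun y x hz => h3 y x (h y x hz)⟩

theorem dead_cov {Y X ι V : Type} (lY : ι → Set Y) (lX : ι → Finset X) (w : V → X → ℝ)
    (u : V → Y → ℝ) (Z : Y → X → Prop) (v : V) :
    (MT.dead v : MT V).Cov lY lX w u (fun y x => Z y x ∧ ¬ w v x < u v y) := by
  intro y x hz
  exact hz.2

theorem sel_aux {V : Type} (k : ℕ) (hk : 2 ≤ k) : ∀ t : MT V, 2 * k < 3 * t.cnt →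
    ∃ s t' : MT V, k ≤ 3 * s.cnt ∧ 3 * s.cnt ≤ 2 * k ∧ t'.cnt + s.cnt = t.cnt ∧
      t'.top = t.top ∧
    ∀ (Y X ι : Type) (lY : ι → Set Y) (lX : ι → Finset X) (w : V → X → ℝ) (u : V → Y → ℝ)
      (Z : Y → X → Prop), t.Cov lY lX w u Z →
      s.Cov lY lX w u Z ∧ t'.Cov lY lX w u (fun y x => Z y x ∧ ¬ w s.top x < u s.top y) := by
  intro t
  induction t with
  | dead v => intro h; simp [MT.cnt] at h
  | live v => intro h; simp [MT.cnt] at h; omega
  | node v l r ihl ihr =>
    intro h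
    simp only [MT.cnt] at h
    by_cases hl : k ≤ 3 * l.cnt
    · by_cases hl2 : 3 * l.cnt ≤ 2 * k
      · refine ⟨l, .node v (.dead l.top) r, hl, hl2, ?_, rfl, ?_⟩
        · simp only [MT.cnt]; omega
        · intro Y X ι lY lX w u Z hc
          obtain ⟨h1, h2, h3⟩ := hc
          refine ⟨h1, dead_cov lY lX w u Z l.top,
            cov_anti lY lX w u Z _ (fun y x hz => hz.1) r h2, fun y x hz => ?_⟩
          exact h3 y x hz.1
      · obtain ⟨s, t', g1, g2, g3, g4, g5⟩ := ihl (by omega)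
        refine ⟨s, .node v t' r, g1, g2, ?_, rfl, ?_⟩
        · simp only [MT.cnt]; omega
        · intro Y X ι lY lX w u Z hc
          obtain ⟨h1, h2, h3⟩ := hc
          obtain ⟨q1, q2⟩ := g5 Y X ι lY lX w u Z h1
          refine ⟨q1, q2, cov_anti lY lX w u Z _ (fun y x hz => hz.1) r h2, fun y x hz => ?_⟩
          rw [g4]
          exact h3 y x hz.1
    · have hr : k ≤ 3 * r.cnt := by omega
      by_cases hr2 : 3 * r.cnt ≤ 2 * k
      · refine ⟨r, .node v l (.dead r.top), hr, hr2, ?_, rfl, ?_⟩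
        · simp only [MT.cnt]; omega
        · intro Y X ι lY lX w u Z hc
          obtain ⟨h1, h2, h3⟩ := hc
          refine ⟨h2, cov_anti lY lX w u Z _ (fun y x hz => hz.1) l h1,
            dead_cov lY lX w u Z r.top, fun y x hz => ?_⟩
          exact h3 y x hz.1
      · obtain ⟨s, t', g1, g2, g3, g4, g5⟩ := ihr (by omega)
        refine ⟨s, .node v l t', g1, g2, ?_, rfl, ?_⟩
        · simp only [MT.cnt]; omega
        · intro Y X ι lY lX w u Z hc
          obtain ⟨h1, h2, h3⟩ := hc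
          obtain ⟨q1, q2⟩ := g5 Y X ι lY lX w u Z h2
          refine ⟨q1, cov_anti lY lX w u Z _ (fun y x hz => hz.1) l h1, q2, fun y x hz => ?_⟩
          rw [g4]
          exact h3 y x hz.1

theorem pf_SEL : S_SEL := by
  intro V t ht
  exact sel_aux t.cnt ht t (by omega)

end Pool.Agent.H22.CPE
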